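import Pool.Agent.Work.MP_46fa68_48.SetPart3

/-!
# Families of permutations with many common fixed points

Let `n > 2 t` and let `A` be a family of permutations of `n` points, any two of which have at
least `t` common fixed points. Then `A` has at most `(n - t)!` members, with equality only if `A`
consists of all permutations fixing `t` given points.
-/

namespace Pool.Agent.Work.MP_46fa68_48

open Finset Equiv

variable {n : ℕ}

/-- the set of fixed points -/
def Fx (σ : Perm (Fin n)) : Finset (Fin n) := univ.filter (fun i => σ i = i)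

lemma mem_Fx {σ : Perm (Fin n)} {i : Fin n} : i ∈ Fx σ ↔ σ i = i := by simp [Fx]

lemma card_fixing_exactly (F : Finset (Fin n)) :
    ((univ : Finset (Perm (Fin n))).filter (fun σ => Fx σ = F)).card =
      numDerangements (n - F.card) := by
  classical
  have h1 : Fintype.card (derangements {x : Fin n // x ∉ F}) = numDerangements (n - F.card) := by
    rw [card_derangements_eq_numDerangements]
    congr 1
    rw [Fintype.card_subtype_compl, Fintype.card_fin, Fintype.card_coe]
  rw [← h1, Fintype.card_congr (derangements.subtypeEquiv (fun x : Fin n => x ∉ F)),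
    Fintype.card_subtype]
  congr 1
  ext σ
  simp only [Finset.mem_filter, Finset.mem_univ, true_and, not_not, Finset.ext_iff, mem_Fx,
    Function.mem_fixedPoints, Function.IsFixedPt]
  exact ⟨fun h a => (h a).symm, fun h a => (h a).symm⟩

/-- any two members have `t` common fixed points -/
def CF (t : ℕ) (A : Finset (Perm (Fin n))) : Prop :=
  ∀ σ ∈ A, ∀ τ ∈ A, t ≤ (univ.filter (fun i : Fin n => σ i = i ∧ τ i = i)).card

lemma card_le_W (A : Finset (Perm (Fin n))) : A.card ≤ W (A.image Fx) := by
  unfold W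
  rw [Finset.card_eq_sum_card_image Fx A]
  apply Finset.sum_le_sum
  intro F _
  rw [← card_fixing_exactly F]
  apply Finset.card_le_card
  intro σ hσ
  rw [Finset.mem_filter] at hσ ⊢
  exact ⟨Finset.mem_univ _, hσ.2⟩

lemma CF.ti {t : ℕ} {A : Finset (Perm (Fin n))} (h : CF t A) : TI t (A.image Fx) := by
  intro E hE F hF
  obtain ⟨σ, hσ, rfl⟩ := Finset.mem_image.1 hE
  obtain ⟨τ, hτ, rfl⟩ := Finset.mem_image.1 hF
  have h1 : Fx σ ∩ Fx τ = univ.filter (fun i : Fin n => σ i = i ∧ τ i = i) := by
    ext i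
    simp [mem_Fx]
  rw [h1]
  exact h σ hσ τ hτ

/-- upper bound -/
theorem perm_part_le {t : ℕ} (ht : 1 ≤ t) (hn : 2 * t < n) (A : Finset (Perm (Fin n)))
    (h : CF t A) : A.card ≤ (n - t).factorial :=
  (card_le_W A).trans (set_part ht hn _ h.ti).1

/-- equality -/
theorem perm_part_eq {t : ℕ} (ht : 1 ≤ t) (hn : 2 * t < n) (A : Finset (Perm (Fin n)))
    (h : CF t A) (heq : A.card = (n - t).factorial) :
    ∃ X : Finset (Fin n), X.card = t ∧ ∀ σ ∈ A, ∀ i ∈ X, σ i = i := by
  obtain ⟨h1, h2⟩ := set_part ht hn _ h.ti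
  obtain ⟨X, hX, hXt⟩ := h2 (le_antisymm h1 (heq ▸ card_le_W A))
  refine ⟨X, hXt, ?_⟩
  intro σ hσ i hi
  have h3 := h.ti X hX (Fx σ) (Finset.mem_image_of_mem _ hσ)
  have h4 : X ∩ Fx σ = X :=
    Finset.eq_of_subset_of_card_le Finset.inter_subset_left (by rw [hXt]; exact h3)
  rw [← h4, Finset.mem_inter, mem_Fx] at hi
  exact hi.2

end Pool.Agent.Work.MP_46fa68_48
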