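import Mathlib

/-!
# A weighted Ahlswede-Khachatrian theorem

Let `n > 2 t`, `t ≥ 1` and let `G` be a family of subsets of an `n`-element set, any two of which
(equal ones included) meet in at least `t` points. Then the number of permutations whose set of
fixed points belongs to `G` is at most `(n - t)!`, and if it is equal to `(n - t)!` then `G`
contains a set of size `t`.
-/

namespace Pool.Agent.Work.MP_46fa68_48

open Finset

/-! ## the numbers `gg c r`: permutations of `c + r` points in which `r` given points move -/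

/-- number of permutations of `c + r` points in which `r` given points are not fixed -/
def gg : ℕ → ℕ → ℕ
  | 0, r => numDerangements r
  | c + 1, r => gg c r + gg c (r + 1)

lemma gg_zero (r : ℕ) : gg 0 r = numDerangements r := rfl

lemma gg_succ (c r : ℕ) : gg (c + 1) r = gg c r + gg c (r + 1) := rfl

lemma gg_rec (c : ℕ) : ∀ r : ℕ, gg c (r + 2) = (c + r + 1) * gg c (r + 1) + (r + 1) * gg c r := by
  induction c with
  | zero =>
    intro r
    rw [gg_zero, gg_zero, gg_zero, numDerangements_add_two]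
    ring
  | succ c ih =>
    intro r
    rw [gg_succ, gg_succ, gg_succ, ih (r + 1), ih r]
    ring

lemma gg_one (c : ℕ) : gg c 1 = c * gg c 0 := by
  induction c with
  | zero => simp [gg_zero]
  | succ c ih =>
    have h : gg c 2 = (c + 1) * gg c 1 + gg c 0 := by
      have h := gg_rec c 0
      simpa using h
    have h1 : gg (c + 1) 1 = gg c 1 + gg c 2 := rfl
    have h2 : gg (c + 1) 0 = gg c 0 + gg c 1 := rfl
    rw [h1, h2, h, ih]
    ring

lemma gg_c_zero (c : ℕ) : gg c 0 = c.factorial := by
  induction c with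
  | zero => simp [gg_zero]
  | succ c ih =>
    rw [gg_succ, zero_add, gg_one, ih, Nat.factorial_succ]
    ring

lemma gg_succ_pos (c : ℕ) : ∀ r : ℕ, 0 < gg (c + 1) r := by
  induction c with
  | zero =>
    intro r
    rw [gg_succ, gg_zero, gg_zero]
    induction r with
    | zero => simp
    | succ r ih =>
      rw [numDerangements_add_two r]
      have h2 : 0 < (r + 1) * (numDerangements r + numDerangements (r + 1)) :=
        Nat.mul_pos (Nat.succ_pos r) ih
      omega
  | succ c ih =>
    intro r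
    rw [gg_succ]
    have := ih r
    omega

lemma gg_two_pos (c r : ℕ) : 0 < gg c (r + 2) := by
  rw [gg_rec]
  have h1 := gg_succ_pos c r
  rw [gg_succ] at h1
  rcases Nat.eq_zero_or_pos (gg c r) with h | h
  · have h2 : 0 < gg c (r + 1) := by omega
    have h3 : 0 < (c + r + 1) * gg c (r + 1) := Nat.mul_pos (Nat.succ_pos _) h2
    omega
  · have h3 : 0 < (r + 1) * gg c r := Nat.mul_pos (Nat.succ_pos _) h
    omega

lemma gg_lt (c r : ℕ) : gg c (r + 1) < gg c (r + 2) := by
  rcases Nat.eq_zero_or_pos (gg c r) with h | h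
  · have hc : c = 0 := by
      rcases Nat.eq_zero_or_pos c with hc | hc
      · exact hc
      · obtain ⟨c', rfl⟩ := Nat.exists_eq_succ_of_ne_zero hc.ne'
        have := gg_succ_pos c' r
        rw [Nat.succ_eq_add_one] at h
        omega
    subst hc
    have hr : r = 1 := by
      rcases r with _ | _ | r
      · simp [gg_zero] at h
      · rfl
      · exact absurd h (gg_two_pos 0 r).ne'
    subst hr
    decide
  · rw [gg_rec]
    have h3 : 0 < (r + 1) * gg c r := Nat.mul_pos (Nat.succ_pos _) h
    have h4 : gg c (r + 1) ≤ (c + r + 1) * gg c (r + 1) :=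
      Nat.le_mul_of_pos_left _ (Nat.succ_pos _)
    omega

/-- the key inequality -/
lemma gg_key (c r t : ℕ) (ht : t ≤ c + 2 * r + 1) :
    (t + 2 * r + 1) * gg c (r + 1) ≤ (r + 1) * gg (c + 1) (r + 1) := by
  rw [gg_succ, gg_rec]
  have h0 : r ≤ r * r := Nat.le_mul_self r
  have h1 : (t + 2 * r + 1) ≤ (r + 1) * (c + r + 2) := by
    have h2 : (r + 1) * (c + r + 2) = r * c + r * r + 3 * r + c + 2 := by ring
    rw [h2]
    have h3 : 0 ≤ r * c := Nat.zero_le _
    omega
  calc (t + 2 * r + 1) * gg c (r + 1) ≤ (r + 1) * (c + r + 2) * gg c (r + 1) :=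
        Nat.mul_le_mul_right _ h1
    _ ≤ (r + 1) * (c + r + 2) * gg c (r + 1) + (r + 1) * ((r + 1) * gg c r) :=
        Nat.le_add_right _ _
    _ = _ := by ring

lemma gg_key_strict (c t : ℕ) (ht : t ≤ c + 1) :
    (t + 1) * gg c 1 < gg (c + 1) 1 := by
  have h0 := gg_rec c 0
  simp only [zero_add, add_zero, one_mul] at h0
  rw [gg_succ, h0]
  have h1 : (t + 1) * gg c 1 ≤ (c + 2) * gg c 1 := Nat.mul_le_mul_right _ (by omega)
  have h2 : 0 < gg c 0 := by rw [gg_c_zero]; exact Nat.factorial_pos c
  nlinarith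

/-- the arithmetic of a pair of complementary sizes -/
lemma gg_pair (c r s a b : ℕ) (hab : 0 < a + b) :
    a * gg c (r + 1) + b * gg c (s + 1) < a * gg (c + 1) (r + 1) ∨
    a * gg c (r + 1) + b * gg c (s + 1) < b * gg (c + 1) (s + 1) := by
  by_contra hcon
  push Not at hcon
  obtain ⟨h1, h2⟩ := hcon
  rw [gg_succ] at h1 h2
  have h3 := gg_lt c r
  have h4 := gg_lt c s
  have h5 : a * gg c (r + 2) ≤ b * gg c (s + 1) := by nlinarith
  have h6 : b * gg c (s + 2) ≤ a * gg c (r + 1) := by nlinarith
  rcases Nat.eq_zero_or_pos a with ha | ha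
  · subst ha
    have hb : 0 < b := by omega
    have h7 : 0 < b * gg c (s + 2) := Nat.mul_pos hb (by omega)
    omega
  · have h7 : a * gg c (r + 1) < a * gg c (r + 2) := Nat.mul_lt_mul_of_pos_left h3 ha
    have h8 : b * gg c (s + 1) ≤ b * gg c (s + 2) := Nat.mul_le_mul_left _ h4.le
    omega

/-- sum over the powerset -/
lemma sum_powerset_gg {α : Type} [DecidableEq α] (B : Finset α) : ∀ r : ℕ,
    ∑ J ∈ B.powerset, numDerangements (r + B.card - J.card) = gg B.card r := by
  induction B using Finset.induction_on with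
  | empty => intro r; simp [gg_zero]
  | insert b B hb ih =>
    intro r
    rw [Finset.sum_powerset_insert hb, Finset.card_insert_of_notMem hb, gg_succ, ← ih r,
      ← ih (r + 1), add_comm (∑ J ∈ B.powerset, numDerangements (r + B.card - J.card))]
    congr 1
    · apply Finset.sum_congr rfl
      intro J _
      congr 1
      omega
    · apply Finset.sum_congr rfl
      intro J hJ
      have hbJ : b ∉ J := fun h => hb (Finset.mem_powerset.1 hJ h)
      rw [Finset.card_insert_of_notMem hbJ]
      congr 1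
      omega

variable {n : ℕ}

/-- weight of a family -/
def W (G : Finset (Finset (Fin n))) : ℕ := ∑ F ∈ G, numDerangements (n - F.card)

lemma sum_trace (A E : Finset (Fin n)) (hE : E ⊆ A) :
    ∑ F ∈ (univ : Finset (Finset (Fin n))).filter (fun F => F ∩ A = E),
      numDerangements (n - F.card) = gg (n - A.card) (A.card - E.card) := by
  have hc : Aᶜ.card = n - A.card := by rw [Finset.card_compl, Fintype.card_fin]
  rw [← hc, ← sum_powerset_gg Aᶜ]
  symm
  apply Finset.sum_bij (fun J _ => E ∪ J)
  · intro J hJ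
    rw [Finset.mem_powerset] at hJ
    rw [Finset.mem_filter]
    refine ⟨Finset.mem_univ _, ?_⟩
    ext x
    simp only [Finset.mem_inter, Finset.mem_union]
    constructor
    · rintro ⟨h1 | h1, h2⟩
      · exact h1
      · exact absurd h2 (Finset.mem_compl.1 (hJ h1))
    · intro h; exact ⟨Or.inl h, hE h⟩
  · intro J hJ K hK hJK
    rw [Finset.mem_powerset] at hJ hK
    ext x
    have h := Finset.ext_iff.1 hJK x
    simp only [Finset.mem_union] at h
    constructor
    · intro hx
      rcases h.1 (Or.inr hx) with h1 | h1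
      · exact absurd (hE h1) (Finset.mem_compl.1 (hJ hx))
      · exact h1
    · intro hx
      rcases h.2 (Or.inr hx) with h1 | h1
      · exact absurd (hE h1) (Finset.mem_compl.1 (hK hx))
      · exact h1
  · intro F hF
    rw [Finset.mem_filter] at hF
    refine ⟨F \ A, ?_, ?_⟩
    · rw [Finset.mem_powerset]
      intro x hx
      rw [Finset.mem_compl]
      exact (Finset.mem_sdiff.1 hx).2
    · rw [← hF.2]
      ext x
      simp only [Finset.mem_union, Finset.mem_inter, Finset.mem_sdiff]
      tauto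
  · intro J hJ
    rw [Finset.mem_powerset] at hJ
    have hd : Disjoint E J := by
      rw [Finset.disjoint_left]
      intro x hx hxJ
      exact Finset.mem_compl.1 (hJ hxJ) (hE hx)
    rw [Finset.card_union_of_disjoint hd]
    congr 1
    have h1 : A.card ≤ n := by simpa using Finset.card_le_univ A
    have h2 : E.card ≤ A.card := Finset.card_le_card hE
    rw [hc]
    omega

/-! ## families -/

/-- `t`-intersecting -/
def TI (t : ℕ) (G : Finset (Finset (Fin n))) : Prop := ∀ E ∈ G, ∀ F ∈ G, t ≤ (E ∩ F).card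

/-- closed upwards -/
def Up (G : Finset (Finset (Fin n))) : Prop := ∀ E ∈ G, ∀ F, E ⊆ F → F ∈ G

/-- trace on the first `l` points -/
def tr (l : ℕ) (F : Finset (Fin n)) : Finset (Fin n) := F.filter (fun x => x.val < l)

/-- generated by subsets of the first `l` points -/
def Gen (l : ℕ) (G : Finset (Finset (Fin n))) : Prop := ∀ E ∈ G, tr l E ∈ G

/-- shifted -/
def Sh (G : Finset (Finset (Fin n))) : Prop :=
  ∀ i j : Fin n, i < j → ∀ E ∈ G, j ∈ E → i ∉ E → insert i (E.erase j) ∈ G

lemma mem_tr {l : ℕ} {F : Finset (Fin n)} {x : Fin n} : x ∈ tr l F ↔ x ∈ F ∧ x.val < l := by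
  simp [tr]

lemma tr_sub (l : ℕ) (F : Finset (Fin n)) : tr l F ⊆ F := Finset.filter_subset _ _

/-! ## one shift -/

/-- the shift of a set -/
def T (G : Finset (Finset (Fin n))) (i j : Fin n) (a : Finset (Fin n)) : Finset (Fin n) :=
  if j ∈ a ∧ i ∉ a ∧ insert i (a.erase j) ∉ G then insert i (a.erase j) else a

lemma card_swap {i j : Fin n} {a : Finset (Fin n)} (hj : j ∈ a) (hi : i ∉ a) :
    (insert i (a.erase j)).card = a.card := by
  rw [Finset.card_insert_of_notMem (fun h => hi (Finset.mem_of_mem_erase h)),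
    Finset.card_erase_of_mem hj]
  have : 0 < a.card := Finset.card_pos.2 ⟨j, hj⟩
  omega

lemma card_T (G : Finset (Finset (Fin n))) (i j : Fin n) (a : Finset (Fin n)) :
    (T G i j a).card = a.card := by
  unfold T
  split_ifs with h
  · exact card_swap h.1 h.2.1
  · rfl

lemma swap_swap {i j : Fin n} (hij : i ≠ j) {a : Finset (Fin n)} (hj : j ∈ a) (hi : i ∉ a) :
    insert j ((insert i (a.erase j)).erase i) = a := by
  ext x
  simp only [Finset.mem_insert, Finset.mem_erase]
  by_cases hxj : x = j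
  · subst hxj; simp [hj]
  · by_cases hxi : x = i
    · subst hxi; simp [hi, hxj]
    · simp [hxi, hxj]

lemma T_inj (G : Finset (Finset (Fin n))) {i j : Fin n} (hij : i ≠ j) :
    Set.InjOn (T G i j) (G : Set (Finset (Fin n))) := by
  intro a ha b hb hab
  rw [Finset.mem_coe] at ha hb
  unfold T at hab
  split_ifs at hab with h1 h2 h2
  · rw [← swap_swap hij h1.1 h1.2.1, ← swap_swap hij h2.1 h2.2.1, hab]
  · exact absurd (hab ▸ hb) h1.2.2
  · exact absurd (hab ▸ ha) h2.2.2
  · exact hab

lemma mem_shift (G : Finset (Finset (Fin n))) {i j : Fin n} (hij : i ≠ j)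
    (F : Finset (Fin n)) :
    F ∈ G.image (T G i j) ↔ (F ∈ G ∧ (j ∈ F → i ∉ F → insert i (F.erase j) ∈ G)) ∨
      (i ∈ F ∧ j ∉ F ∧ insert j (F.erase i) ∈ G) := by
  constructor
  · intro h
    obtain ⟨a, ha, rfl⟩ := Finset.mem_image.1 h
    unfold T
    split_ifs with h1
    · right
      refine ⟨Finset.mem_insert_self _ _, ?_, ?_⟩
      · simp [hij.symm]
      · rw [swap_swap hij h1.1 h1.2.1]; exact ha
    · left
      refine ⟨ha, fun hj hi => ?_⟩
      by_contra h2
      exact h1 ⟨hj, hi, h2⟩
  · rintro (⟨h1, h2⟩ | ⟨h1, h2, h3⟩)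
    · refine Finset.mem_image.2 ⟨F, h1, ?_⟩
      unfold T
      rw [if_neg]
      rintro ⟨h3, h4, h5⟩
      exact h5 (h2 h3 h4)
    · by_cases hF : F ∈ G
      · refine Finset.mem_image.2 ⟨F, hF, ?_⟩
        unfold T
        rw [if_neg]
        rintro ⟨h4, _, _⟩
        exact h2 h4
      · refine Finset.mem_image.2 ⟨_, h3, ?_⟩
        unfold T
        have h4 : insert i ((insert j (F.erase i)).erase j) = F := swap_swap hij.symm h1 h2
        rw [if_pos]
        · exact h4
        · refine ⟨Finset.mem_insert_self _ _, ?_, ?_⟩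
          · simp [hij]
          · rw [h4]; exact hF

lemma shift_up (G : Finset (Finset (Fin n))) {i j : Fin n} (hij : i ≠ j) (hG : Up G) :
    Up (G.image (T G i j)) := by
  intro F hF F2 hsub
  rw [mem_shift G hij] at hF ⊢
  rcases hF with ⟨h1, h2⟩ | ⟨h1, h2, h3⟩
  · left
    refine ⟨hG F h1 F2 hsub, fun hj hi => ?_⟩
    have hiF : i ∉ F := fun h => hi (hsub h)
    by_cases hjF : j ∈ F
    · exact hG _ (h2 hjF hiF) _ (Finset.insert_subset_insert _ (Finset.erase_subset_erase _ hsub))
    · refine hG F h1 _ ?_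
      intro x hx
      refine Finset.mem_insert_of_mem (Finset.mem_erase.2 ⟨?_, hsub hx⟩)
      rintro rfl
      exact hjF hx
  · by_cases hj : j ∈ F2
    · left
      refine ⟨hG _ h3 _ ?_, fun _ hi => absurd (hsub h1) hi⟩
      intro x hx
      rcases Finset.mem_insert.1 hx with h | h
      · rw [h]; exact hj
      · exact hsub (Finset.mem_of_mem_erase h)
    · right
      exact ⟨hsub h1, hj, hG _ h3 _ (Finset.insert_subset_insert _
        (Finset.erase_subset_erase _ hsub))⟩

lemma card_aux {i j : Fin n} {X Y : Finset (Fin n)} (hi : i ∉ X) (hY : i ∈ Y)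
    (h : ∀ x ∈ X, x ≠ j → x ∈ Y) : X.card ≤ Y.card := by
  by_cases hj : j ∈ X
  · have h1 : insert i (X.erase j) ⊆ Y := by
      intro x hx
      rcases Finset.mem_insert.1 hx with h2 | h2
      · rw [h2]; exact hY
      · exact h x (Finset.mem_of_mem_erase h2) (Finset.ne_of_mem_erase h2)
    have h2 := Finset.card_le_card h1
    rwa [card_swap hj hi] at h2
  · exact Finset.card_le_card (fun x hx => h x hx (fun e => hj (e ▸ hx)))

lemma shift_ti (G : Finset (Finset (Fin n))) {i j : Fin n} (hij : i ≠ j) {t : ℕ} (hG : TI t G) :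
    TI t (G.image (T G i j)) := by
  have key : ∀ E F : Finset (Fin n), (E ∈ G ∧ (j ∈ E → i ∉ E → insert i (E.erase j) ∈ G)) →
      (i ∈ F ∧ j ∉ F ∧ insert j (F.erase i) ∈ G) → t ≤ (E ∩ F).card := by
    rintro E F ⟨h1, h2⟩ ⟨h3, h4, h5⟩
    by_cases hiE : i ∈ E
    · refine (hG _ h1 _ h5).trans (card_aux (i := i) (j := j) ?_ ?_ ?_)
      · simp [hij]
      · exact Finset.mem_inter.2 ⟨hiE, h3⟩
      · intro x hx hxj
        simp only [Finset.mem_inter, Finset.mem_insert, Finset.mem_erase] at hx ⊢
        tauto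
    · by_cases hjE : j ∈ E
      · refine (hG _ (h2 hjE hiE) _ h5).trans (Finset.card_le_card ?_)
        intro x hx
        simp only [Finset.mem_inter, Finset.mem_insert, Finset.mem_erase] at hx ⊢
        obtain ⟨hx1, hx2⟩ := hx
        rcases hx1 with rfl | ⟨hxj, hxE⟩
        · rcases hx2 with h | h
          · exact absurd h hij
          · exact absurd rfl h.1
        · rcases hx2 with h | h
          · exact absurd h hxj
          · exact ⟨hxE, h.2⟩
      · refine (hG _ h1 _ h5).trans (Finset.card_le_card ?_)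
        intro x hx
        simp only [Finset.mem_inter, Finset.mem_insert, Finset.mem_erase] at hx ⊢
        obtain ⟨hx1, hx2⟩ := hx
        rcases hx2 with h | h
        · exact absurd (h ▸ hx1) hjE
        · exact ⟨hx1, h.2⟩
  intro E hE F hF
  rw [mem_shift G hij] at hE hF
  rcases hE with hE | hE
  · rcases hF with hF | hF
    · exact hG E hE.1 F hF.1
    · exact key E F hE hF
  · rcases hF with hF | hF
    · rw [Finset.inter_comm]; exact key F E hF hE
    · refine (hG _ hE.2.2 _ hF.2.2).trans (card_aux (i := i) (j := j) ?_ ?_ ?_)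
      · simp [hij]
      · exact Finset.mem_inter.2 ⟨hE.1, hF.1⟩
      · intro x hx hxj
        simp only [Finset.mem_inter, Finset.mem_insert, Finset.mem_erase] at hx ⊢
        tauto

lemma shift_W (G : Finset (Finset (Fin n))) {i j : Fin n} (hij : i ≠ j) :
    W (G.image (T G i j)) = W G := by
  unfold W
  rw [Finset.sum_image (T_inj G hij)]
  exact Finset.sum_congr rfl (fun a _ => by rw [card_T])

lemma tr_swap {l : ℕ} {i j : Fin n} (hi : i.val < l) (hj : j.val < l) (F : Finset (Fin n)) :
    tr l (insert i (F.erase j)) = insert i ((tr l F).erase j) := by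
  ext x
  simp only [mem_tr, Finset.mem_insert, Finset.mem_erase]
  constructor
  · rintro ⟨h1 | h1, h2⟩
    · exact Or.inl h1
    · exact Or.inr ⟨h1.1, h1.2, h2⟩
  · rintro (h1 | h1)
    · subst h1; exact ⟨Or.inl rfl, hi⟩
    · exact ⟨Or.inr ⟨h1.1, h1.2.1⟩, h1.2.2⟩

lemma shift_gen (G : Finset (Finset (Fin n))) {i j : Fin n} (hij : i ≠ j) {l : ℕ}
    (hi : i.val < l) (hj : j.val < l) (hG : Gen l G) : Gen l (G.image (T G i j)) := by
  intro F hF
  rw [mem_shift G hij] at hF ⊢
  rcases hF with ⟨h1, h2⟩ | ⟨h1, h2, h3⟩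
  · left
    refine ⟨hG F h1, fun hjF hiF => ?_⟩
    rw [mem_tr] at hjF hiF
    rw [← tr_swap hi hj]
    exact hG _ (h2 hjF.1 (fun h => hiF ⟨h, hi⟩))
  · right
    refine ⟨mem_tr.2 ⟨h1, hi⟩, fun h => h2 (mem_tr.1 h).1, ?_⟩
    rw [← tr_swap hj hi]
    exact hG _ h3

/-- the potential -/
def phi (F : Finset (Fin n)) : ℕ := ∑ x ∈ F, x.val

lemma phi_swap {i j : Fin n} {a : Finset (Fin n)} (hj : j ∈ a) (hi : i ∉ a) :
    phi (insert i (a.erase j)) + j.val = phi a + i.val := by
  unfold phi
  rw [Finset.sum_insert (fun h => hi (Finset.mem_of_mem_erase h)),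
    ← Finset.add_sum_erase a _ hj]
  ring

lemma phi_T (G : Finset (Finset (Fin n))) {i j : Fin n} (hij : i < j) (a : Finset (Fin n)) :
    phi (T G i j a) ≤ phi a := by
  unfold T
  split_ifs with h
  · have h1 := phi_swap h.1 h.2.1
    have h2 : i.val < j.val := hij
    omega
  · exact le_rfl

lemma shift_exists (t l : ℕ) : ∀ (N : ℕ) (G : Finset (Finset (Fin n))), ∑ F ∈ G, phi F = N →
    TI t G → Up G → Gen l G →
    ∃ G' : Finset (Finset (Fin n)), TI t G' ∧ Up G' ∧ Gen l G' ∧ Sh G' ∧ W G' = W G ∧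
      ((∃ X ∈ G', X.card = t) → ∃ X ∈ G, X.card = t) := by
  intro N
  induction N using Nat.strong_induction_on with
  | _ N ih =>
  intro G hN h1 h2 h3
  by_cases hs : Sh G
  · exact ⟨G, h1, h2, h3, hs, rfl, fun h => h⟩
  · unfold Sh at hs
    push Not at hs
    obtain ⟨i, j, hij, E, hE, hjE, hiE, hE'⟩ := hs
    have hjl : j.val < l := by
      by_contra hjl
      apply hE'
      refine h2 _ (h3 E hE) _ ?_
      intro x hx
      rw [mem_tr] at hx
      refine Finset.mem_insert_of_mem (Finset.mem_erase.2 ⟨?_, hx.1⟩)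
      rintro rfl
      omega
    have hil : i.val < l := lt_trans (show i.val < j.val from hij) hjl
    have hne : i ≠ j := ne_of_lt hij
    have hlt : ∑ F ∈ G.image (T G i j), phi F < N := by
      rw [Finset.sum_image (T_inj G hne), ← hN]
      apply Finset.sum_lt_sum (fun a _ => phi_T G hij a)
      refine ⟨E, hE, ?_⟩
      unfold T
      rw [if_pos ⟨hjE, hiE, hE'⟩]
      have h4 := phi_swap hjE hiE
      have h5 : i.val < j.val := hij
      omega
    obtain ⟨G', a1, a2, a3, a4, a5, a6⟩ := ih _ hlt (G.image (T G i j)) rfl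
      (shift_ti G hne h1) (shift_up G hne h2) (shift_gen G hne hil hjl h3)
    refine ⟨G', a1, a2, a3, a4, ?_, ?_⟩
    · rw [a5, shift_W G hne]
    · intro h
      obtain ⟨X, hX, hXt⟩ := a6 h
      rw [Finset.mem_image] at hX
      obtain ⟨Y, hY, rfl⟩ := hX
      exact ⟨Y, hY, by rw [← hXt, card_T]⟩

end Pool.Agent.Work.MP_46fa68_48
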