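import Pool.Agent.Work.MP_46fa68_48.SetPart

/-!
# A weighted Ahlswede-Khachatrian theorem, second part: selection and conclusion
-/

namespace Pool.Agent.Work.MP_46fa68_48

open Finset

variable {n : ℕ}

/-! ## the selection -/

/-- the property of the generators containing the last point (without that point) -/
def PH (t l : ℕ) (H : Finset (Finset (Fin n))) : Prop :=
  (∀ E ∈ H, ∀ x ∈ E, x.val < l) ∧
  ∀ E ∈ H, ∀ F ∈ H, t ≤ (E ∩ F).card + 1 ∧
    ((E ∩ F).card < t → ∀ x : Fin n, x.val < l → x ∈ E ∪ F)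

/-- the first `l` points -/
def fl (n l : ℕ) : Finset (Fin n) := univ.filter (fun x => x.val < l)

lemma mem_fl {l : ℕ} {x : Fin n} : x ∈ fl n l ↔ x.val < l := by simp [fl]

lemma card_fl {l : ℕ} (hl : l ≤ n) : (fl n l).card = l := by
  unfold fl
  rw [Fin.card_filter_val_lt]
  exact min_eq_right hl

lemma PH.mono {t l : ℕ} {H K : Finset (Finset (Fin n))} (h : PH t l H) (hK : K ⊆ H) :
    PH t l K :=
  ⟨fun E hE => h.1 E (hK hE), fun E hE F hF => h.2 E (hK hE) F (hK hF)⟩

lemma PH.sub {t l : ℕ} {H : Finset (Finset (Fin n))} (h : PH t l H) {E : Finset (Fin n)}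
    (hE : E ∈ H) : E ⊆ fl n l := fun x hx => mem_fl.2 (h.1 E hE x hx)

lemma PH.card_le {t l : ℕ} {H : Finset (Finset (Fin n))} (h : PH t l H) (hl : l ≤ n)
    {E : Finset (Fin n)} (hE : E ∈ H) : E.card ≤ l := by
  have h1 := Finset.card_le_card (h.sub hE)
  rwa [card_fl hl] at h1

/-- complementary sizes -/
lemma PH.compl {t l : ℕ} {H : Finset (Finset (Fin n))} (h : PH t l H) (hl : l ≤ n)
    {E F : Finset (Fin n)} (hE : E ∈ H) (hF : F ∈ H) (hEF : (E ∩ F).card < t) :
    E.card + F.card + 1 = l + t := by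
  obtain ⟨h1, h2⟩ := h.2 E hE F hF
  have h3 : E ∪ F = fl n l := by
    apply Finset.Subset.antisymm
    · exact Finset.union_subset (h.sub hE) (h.sub hF)
    · intro x hx
      exact h2 hEF x (mem_fl.1 hx)
  have h4 := Finset.card_union_add_card_inter E F
  rw [h3, card_fl hl] at h4
  omega

lemma PH.le_card {t l : ℕ} {H : Finset (Finset (Fin n))} (h : PH t l H) (hl : l ≤ n)
    (htl : t ≤ l) {E : Finset (Fin n)} (hE : E ∈ H) : t ≤ E.card := by
  by_contra hcon
  push Not at hcon
  have h1 := h.compl hl hE hE (by rw [Finset.inter_self]; exact hcon)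
  omega

/-- the sets of `H` of size `l - r` -/
def lev (l r : ℕ) (H : Finset (Finset (Fin n))) : Finset (Finset (Fin n)) :=
  H.filter (fun E => l - E.card = r)

lemma mem_lev {l r : ℕ} {H : Finset (Finset (Fin n))} {E : Finset (Fin n)} :
    E ∈ lev l r H ↔ E ∈ H ∧ l - E.card = r := by simp [lev]

lemma sum_lev (l r : ℕ) (H : Finset (Finset (Fin n))) (f : ℕ → ℕ) :
    ∑ E ∈ lev l r H, f (l - E.card) = (lev l r H).card * f r := by
  rw [Finset.sum_congr rfl (fun E hE => by rw [(mem_lev.1 hE).2]), Finset.sum_const,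
    smul_eq_mul]

lemma sum_sub_lev (l r : ℕ) (H K : Finset (Finset (Fin n))) (hK : K ⊆ lev l r H) (f : ℕ → ℕ) :
    ∑ E ∈ K, f (l - E.card) = K.card * f r := by
  rw [Finset.sum_congr rfl (fun E hE => by rw [(mem_lev.1 (hK hE)).2]), Finset.sum_const,
    smul_eq_mul]

/-- two sets whose sizes are not complementary meet in `t` points -/
lemma PH.ok {t l : ℕ} {H : Finset (Finset (Fin n))} (h : PH t l H) (hl : l ≤ n)
    {E F : Finset (Fin n)} (hE : E ∈ H) (hF : F ∈ H)
    (hne : (l - E.card) + (l - F.card) ≠ l + 1 - t) : t ≤ (E ∩ F).card := by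
  by_contra hcon
  push Not at hcon
  have h1 := h.compl hl hE hF hcon
  have h2 := h.card_le hl hE
  have h3 := h.card_le hl hF
  omega

/-- double counting of the missed points -/
lemma exists_missed (l r : ℕ) (hl : l ≤ n) (hl0 : 0 < l) (K : Finset (Finset (Fin n)))
    (hK : ∀ E ∈ K, (∀ x ∈ E, x.val < l) ∧ l - E.card = r) :
    ∃ k : Fin n, k.val < l ∧ r * K.card ≤ l * (K.filter (fun E => k ∉ E)).card := by
  by_contra hcon
  push Not at hcon
  have h1 : ∑ k ∈ fl n l, (K.filter (fun E => k ∉ E)).card = r * K.card := by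
    have h2 : ∀ k ∈ fl n l, (K.filter (fun E => k ∉ E)).card =
        ∑ E ∈ K, if k ∉ E then 1 else 0 := by
      intro k _
      rw [Finset.card_filter]
    rw [Finset.sum_congr rfl h2, Finset.sum_comm]
    have h3 : ∀ E ∈ K, ∑ k ∈ fl n l, (if k ∉ E then 1 else 0) = r := by
      intro E hE
      rw [← Finset.card_filter]
      have h4 : (fl n l).filter (fun k => k ∉ E) = fl n l \ E := by
        ext x; simp [Finset.mem_sdiff]
      rw [h4, Finset.card_sdiff_of_subset, card_fl hl, (hK E hE).2]
      intro x hx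
      exact mem_fl.2 ((hK E hE).1 x hx)
    rw [Finset.sum_congr rfl h3, Finset.sum_const, smul_eq_mul, mul_comm]
  have h5 : ∑ k ∈ fl n l, l * (K.filter (fun E => k ∉ E)).card < ∑ k ∈ fl n l, r * K.card := by
    apply Finset.sum_lt_sum_of_nonempty
    · rw [← Finset.card_pos, card_fl hl]; exact hl0
    · intro k hk
      exact hcon k (mem_fl.1 hk)
  rw [← Finset.mul_sum, h1, Finset.sum_const, card_fl hl, smul_eq_mul] at h5
  exact lt_irrefl _ h5

/-- the selection inside two complementary levels -/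
lemma select_level {t l c : ℕ} (ht : 1 ≤ t) (htl : t ≤ l) (hl : l ≤ n) (hc : 2 * t ≤ c + l)
    {H : Finset (Finset (Fin n))} (h : PH t l H) (r : ℕ) (hr : (lev l r H).Nonempty) :
    ∃ S : Finset (Finset (Fin n)), S ⊆ lev l r H ∪ lev l (l + 1 - t - r) H ∧
      (∀ E ∈ S, ∀ F ∈ S, t ≤ (E ∩ F).card) ∧
      ∑ E ∈ lev l r H ∪ lev l (l + 1 - t - r) H, gg c (l - E.card) ≤
        ∑ E ∈ S, gg (c + 1) (l - E.card) ∧
      ((∃ E ∈ lev l r H ∪ lev l (l + 1 - t - r) H, E.card = t) →
        ∑ E ∈ lev l r H ∪ lev l (l + 1 - t - r) H, gg c (l - E.card) <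
        ∑ E ∈ S, gg (c + 1) (l - E.card)) := by
  obtain ⟨E0, hE0⟩ := hr
  have hE0' := mem_lev.1 hE0
  have hE1 := h.card_le hl hE0'.1
  have hE2 := h.le_card hl htl hE0'.1
  have hrl : r + t ≤ l := by omega
  rcases Nat.eq_zero_or_pos r with hr0 | hr0
  · -- r = 0
    subst hr0
    have hemp : lev l (l + 1 - t - 0) H = ∅ := by
      rw [Finset.eq_empty_iff_forall_notMem]
      intro E hE
      rw [mem_lev] at hE
      have h1 := h.card_le hl hE.1
      have h2 := h.le_card hl htl hE.1
      omega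
    rw [hemp, Finset.union_empty]
    refine ⟨lev l 0 H, le_rfl, ?_, ?_, ?_⟩
    · intro E hE F hF
      rw [mem_lev] at hE hF
      exact h.ok hl hE.1 hF.1 (by omega)
    · apply Finset.sum_le_sum
      intro E _
      rw [gg_succ]
      exact Nat.le_add_right _ _
    · rintro ⟨E, hE, hEt⟩
      rw [mem_lev] at hE
      have h1 := h.card_le hl hE.1
      have hlt : l = t := by omega
      rw [sum_lev, sum_lev, gg_succ]
      have h2 : 0 < gg c 1 := by
        rw [gg_one, gg_c_zero]
        exact Nat.mul_pos (by omega) (Nat.factorial_pos c)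
      have h3 : 0 < (lev l 0 H).card := Finset.card_pos.2 ⟨E0, hE0⟩
      have h4 : 0 < (lev l 0 H).card * gg c (0 + 1) := Nat.mul_pos h3 h2
      rw [mul_add]
      omega
  · by_cases hmid : l + 1 - t - r = r
    · -- the middle level
      rw [hmid, Finset.union_self]
      obtain ⟨k, hk, hkc⟩ := exists_missed l r hl (by omega) (lev l r H) (by
        intro E hE
        rw [mem_lev] at hE
        exact ⟨h.1 E hE.1, hE.2⟩)
      set Tk := (lev l r H).filter (fun E => k ∉ E) with hTk
      have hsub : Tk ⊆ lev l r H := Finset.filter_subset _ _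
      refine ⟨Tk, hsub, ?_, ?_, ?_⟩
      · intro E hE F hF
        by_contra hcon
        push Not at hcon
        have h1 := (h.2 E (mem_lev.1 (hsub hE)).1 F (mem_lev.1 (hsub hF)).1).2 hcon k hk
        rw [Finset.mem_filter] at hE hF
        rcases Finset.mem_union.1 h1 with h2 | h2
        · exact hE.2 h2
        · exact hF.2 h2
      · rw [sum_sub_lev l r H Tk hsub, sum_lev]
        obtain ⟨r', rfl⟩ := Nat.exists_eq_succ_of_ne_zero hr0.ne'
        rw [Nat.succ_eq_add_one] at *
        have h1 := gg_key c r' t (by omega)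
        have h2 : l = t + 2 * r' + 1 := by omega
        have h3 : l * ((lev l (r' + 1) H).card * gg c (r' + 1)) ≤
            l * (Tk.card * gg (c + 1) (r' + 1)) := by
          calc l * ((lev l (r' + 1) H).card * gg c (r' + 1))
              = (lev l (r' + 1) H).card * ((t + 2 * r' + 1) * gg c (r' + 1)) := by
                rw [← h2]; ring
            _ ≤ (lev l (r' + 1) H).card * ((r' + 1) * gg (c + 1) (r' + 1)) :=
                Nat.mul_le_mul_left _ h1
            _ = ((r' + 1) * (lev l (r' + 1) H).card) * gg (c + 1) (r' + 1) := by ring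
            _ ≤ (l * Tk.card) * gg (c + 1) (r' + 1) := Nat.mul_le_mul_right _ hkc
            _ = _ := by ring
        exact Nat.le_of_mul_le_mul_left h3 (by omega)
      · rintro ⟨E, hE, hEt⟩
        rw [mem_lev] at hE
        have hr1 : r = 1 := by omega
        subst hr1
        have hl2 : l = t + 1 := by omega
        rw [sum_sub_lev l 1 H Tk hsub, sum_lev]
        have h1 := gg_key_strict c t (by omega)
        have h0 : 0 < (lev l 1 H).card := Finset.card_pos.2 ⟨E0, hE0⟩
        have h3 : l * ((lev l 1 H).card * gg c 1) < l * (Tk.card * gg (c + 1) 1) := by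
          calc l * ((lev l 1 H).card * gg c 1)
              = (lev l 1 H).card * ((t + 1) * gg c 1) := by
                rw [← hl2]; ring
            _ < (lev l 1 H).card * gg (c + 1) 1 :=
                Nat.mul_lt_mul_of_pos_left h1 h0
            _ = (1 * (lev l 1 H).card) * gg (c + 1) 1 := by ring
            _ ≤ (l * Tk.card) * gg (c + 1) 1 := Nat.mul_le_mul_right _ hkc
            _ = _ := by ring
        exact lt_of_mul_lt_mul_left h3 (Nat.zero_le _)
    · -- two different levels
      obtain ⟨r', rfl⟩ := Nat.exists_eq_succ_of_ne_zero hr0.ne'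
      rw [Nat.succ_eq_add_one] at *
      obtain ⟨s', hs'⟩ : ∃ s', l + 1 - t - (r' + 1) = s' + 1 :=
        Nat.exists_eq_succ_of_ne_zero (by omega)
      rw [hs'] at hmid ⊢
      have hdisj : Disjoint (lev l (r' + 1) H) (lev l (s' + 1) H) := by
        rw [Finset.disjoint_left]
        intro E hE hE'
        rw [mem_lev] at hE hE'
        omega
      have hok : ∀ q : ℕ, q + q ≠ l + 1 - t → ∀ E ∈ lev l q H, ∀ F ∈ lev l q H,
          t ≤ (E ∩ F).card := by
        intro q hq E hE F hF
        rw [mem_lev] at hE hF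
        exact h.ok hl hE.1 hF.1 (by rw [hE.2, hF.2]; exact hq)
      have hsum : ∑ E ∈ lev l (r' + 1) H ∪ lev l (s' + 1) H, gg c (l - E.card) =
          (lev l (r' + 1) H).card * gg c (r' + 1) + (lev l (s' + 1) H).card * gg c (s' + 1) := by
        rw [Finset.sum_union hdisj, sum_lev, sum_lev]
      rw [hsum]
      have h0 : 0 < (lev l (r' + 1) H).card := Finset.card_pos.2 ⟨E0, hE0⟩
      rcases gg_pair c r' s' (lev l (r' + 1) H).card (lev l (s' + 1) H).card (by omega)
        with hlt | hlt
      · refine ⟨lev l (r' + 1) H, Finset.subset_union_left, hok _ (by omega), ?_, ?_⟩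
        · rw [sum_lev]; exact hlt.le
        · intro _
          rw [sum_lev]; exact hlt
      · refine ⟨lev l (s' + 1) H, Finset.subset_union_right, hok _ (by omega), ?_, ?_⟩
        · rw [sum_lev]; exact hlt.le
        · intro _
          rw [sum_lev]; exact hlt

/-- the selection -/
lemma select {t l c : ℕ} (ht : 1 ≤ t) (htl : t ≤ l) (hl : l ≤ n) (hc : 2 * t ≤ c + l) :
    ∀ (N : ℕ) (H : Finset (Finset (Fin n))), H.card = N → PH t l H →
    ∃ S : Finset (Finset (Fin n)), S ⊆ H ∧ (∀ E ∈ S, ∀ F ∈ S, t ≤ (E ∩ F).card) ∧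
      ∑ E ∈ H, gg c (l - E.card) ≤ ∑ E ∈ S, gg (c + 1) (l - E.card) ∧
      ((∃ E ∈ H, E.card = t) →
        ∑ E ∈ H, gg c (l - E.card) < ∑ E ∈ S, gg (c + 1) (l - E.card)) := by
  intro N
  induction N using Nat.strong_induction_on with
  | _ N ih =>
  intro H hN h
  rcases H.eq_empty_or_nonempty with hemp | ⟨E0, hE0⟩
  · subst hemp
    refine ⟨∅, le_rfl, by simp, by simp, ?_⟩
    rintro ⟨E, hE, _⟩
    simp at hE
  · set r := l - E0.card with hr
    set K := lev l r H ∪ lev l (l + 1 - t - r) H with hK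
    have hKH : K ⊆ H := Finset.union_subset (Finset.filter_subset _ _) (Finset.filter_subset _ _)
    have hE0K : E0 ∈ lev l r H := mem_lev.2 ⟨hE0, rfl⟩
    obtain ⟨S1, a1, a2, a3, a4⟩ := select_level ht htl hl hc h r ⟨E0, hE0K⟩
    rw [← hK] at a3 a4
    have hlt : (H \ K).card < N := by
      rw [← hN]
      apply Finset.card_lt_card
      refine ⟨Finset.sdiff_subset, fun hcon => ?_⟩
      have := hcon hE0
      rw [Finset.mem_sdiff] at this
      exact this.2 (Finset.mem_union_left _ hE0K)
    obtain ⟨S2, b1, b2, b3, b4⟩ := ih _ hlt (H \ K) rfl (h.mono Finset.sdiff_subset)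
    have hdS : Disjoint S1 S2 := by
      rw [Finset.disjoint_left]
      intro E hE1 hE2
      exact (Finset.mem_sdiff.1 (b1 hE2)).2 (a1 hE1)
    have hdH : Disjoint K (H \ K) := Finset.disjoint_sdiff
    have hH : H = K ∪ (H \ K) := (Finset.union_sdiff_of_subset hKH).symm
    have hcross : ∀ E ∈ S1, ∀ F ∈ S2, t ≤ (E ∩ F).card := by
      intro E hE F hF
      have hE1 := a1 hE
      have hF1 := Finset.mem_sdiff.1 (b1 hF)
      refine h.ok hl (hKH hE1) hF1.1 ?_
      intro hcon
      apply hF1.2
      rw [hK, Finset.mem_union, mem_lev, mem_lev]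
      rw [Finset.mem_union, mem_lev, mem_lev] at hE1
      have h1 := h.card_le hl hF1.1
      have h2 := h.le_card hl htl hF1.1
      have h3 := h.card_le hl hE0
      have h4 := h.le_card hl htl hE0
      rcases hE1 with hE1 | hE1
      · right
        refine ⟨hF1.1, ?_⟩
        omega
      · left
        refine ⟨hF1.1, ?_⟩
        omega
    have hsumH : ∀ f : Finset (Fin n) → ℕ, ∑ E ∈ H, f E = ∑ E ∈ K, f E + ∑ E ∈ H \ K, f E := by
      intro f
      conv_lhs => rw [hH]
      exact Finset.sum_union hdH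
    refine ⟨S1 ∪ S2, ?_, ?_, ?_, ?_⟩
    · exact Finset.union_subset (a1.trans hKH) (b1.trans Finset.sdiff_subset)
    · intro E hE F hF
      rcases Finset.mem_union.1 hE with hE | hE
      · rcases Finset.mem_union.1 hF with hF | hF
        · exact a2 E hE F hF
        · exact hcross E hE F hF
      · rcases Finset.mem_union.1 hF with hF | hF
        · rw [Finset.inter_comm]; exact hcross F hF E hE
        · exact b2 E hE F hF
    · rw [hsumH, Finset.sum_union hdS]
      exact Nat.add_le_add a3 b3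
    · rintro ⟨E, hE, hEt⟩
      rw [hsumH, Finset.sum_union hdS]
      by_cases hEK : E ∈ K
      · have := a4 ⟨E, hEK, hEt⟩
        omega
      · have := b4 ⟨E, Finset.mem_sdiff.2 ⟨hE, hEK⟩, hEt⟩
        omega

end Pool.Agent.Work.MP_46fa68_48
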