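import Pool.Agent.Work.MP_46fa68_48.SetPart2

/-!
# A weighted Ahlswede-Khachatrian theorem, third part: the induction
-/

namespace Pool.Agent.Work.MP_46fa68_48

open Finset

variable {n : ℕ}

lemma tr_eq (l : ℕ) (F : Finset (Fin n)) : tr l F = F ∩ fl n l := by
  ext x
  simp [mem_tr, mem_fl]

lemma tr_tr (l : ℕ) (F : Finset (Fin n)) : tr l (tr l F) = tr l F := by
  ext x
  simp only [mem_tr]
  tauto

lemma tr_mono (l : ℕ) {E F : Finset (Fin n)} (h : E ⊆ F) : tr l E ⊆ tr l F := by
  intro x hx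
  rw [mem_tr] at hx ⊢
  exact ⟨h hx.1, hx.2⟩

/-- the part generated by the first `l` points together with `S` -/
def GS (l : ℕ) (G S : Finset (Finset (Fin n))) : Finset (Finset (Fin n)) :=
  univ.filter (fun F => tr l F ∈ G ∨ tr l F ∈ S)

lemma mem_GS {l : ℕ} {G S : Finset (Finset (Fin n))} {F : Finset (Fin n)} :
    F ∈ GS l G S ↔ tr l F ∈ G ∨ tr l F ∈ S := by simp [GS]

/-- the generators containing the last point, without it -/
def HH (l : ℕ) (hl : l < n) (G : Finset (Finset (Fin n))) : Finset (Finset (Fin n)) :=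
  univ.filter (fun E => tr l E = E ∧ E ∉ G ∧ insert (⟨l, hl⟩ : Fin n) E ∈ G)

lemma mem_HH {l : ℕ} {hl : l < n} {G : Finset (Finset (Fin n))} {E : Finset (Fin n)} :
    E ∈ HH l hl G ↔ tr l E = E ∧ E ∉ G ∧ insert (⟨l, hl⟩ : Fin n) E ∈ G := by simp [HH]

lemma notMem_of_tr {l : ℕ} (hl : l < n) {E : Finset (Fin n)} (h : tr l E = E) :
    (⟨l, hl⟩ : Fin n) ∉ E := by
  intro h1
  rw [← h, mem_tr] at h1
  exact lt_irrefl _ h1.2

lemma HH_shift {l : ℕ} (hl : l < n) {G : Finset (Finset (Fin n))} (hS : Sh G)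
    {E : Finset (Fin n)} (hE : E ∈ HH l hl G) {x : Fin n} (hx : x.val < l) (hxE : x ∉ E) :
    insert x E ∈ G := by
  rw [mem_HH] at hE
  have h1 := hS x ⟨l, hl⟩ hx _ hE.2.2 (Finset.mem_insert_self _ _) (by
    rw [Finset.mem_insert]
    rintro (h | h)
    · rw [h] at hx; exact lt_irrefl _ hx
    · exact hxE h)
  rwa [Finset.erase_insert (notMem_of_tr hl hE.1)] at h1

lemma HH_PH {t l : ℕ} (hl : l < n) {G : Finset (Finset (Fin n))} (hTI : TI t G) (hS : Sh G) :
    PH t l (HH l hl G) := by
  refine ⟨?_, ?_⟩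
  · intro E hE x hx
    rw [mem_HH] at hE
    rw [← hE.1, mem_tr] at hx
    exact hx.2
  · intro E hE F hF
    have hE' := mem_HH.1 hE
    have hF' := mem_HH.1 hF
    have heE := notMem_of_tr hl hE'.1
    have heF := notMem_of_tr hl hF'.1
    refine ⟨?_, ?_⟩
    · have h1 := hTI _ hE'.2.2 _ hF'.2.2
      rw [← Finset.insert_inter_distrib] at h1
      rwa [Finset.card_insert_of_notMem (fun h => heE (Finset.mem_inter.1 h).1)] at h1
    · intro hlt x hx
      by_contra hcon
      rw [Finset.mem_union, not_or] at hcon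
      have h1 := HH_shift hl hS hE hx hcon.1
      have h2 := hTI _ h1 _ hF'.2.2
      have h3 : insert x E ∩ insert (⟨l, hl⟩ : Fin n) F ⊆ E ∩ F := by
        intro y hy
        simp only [Finset.mem_inter, Finset.mem_insert] at hy ⊢
        obtain ⟨h4, h5⟩ := hy
        rcases h4 with rfl | h4
        · rcases h5 with h5 | h5
          · exfalso
            rw [h5] at hx
            exact lt_irrefl _ hx
          · exact absurd h5 hcon.2
        · rcases h5 with h5 | h5
          · exact absurd (h5 ▸ h4) heE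
          · exact ⟨h4, h5⟩
      have h6 := Finset.card_le_card h3
      omega

lemma W_split (l : ℕ) (G K : Finset (Finset (Fin n)))
    (hK : ∀ F, tr l F ∈ G → F ∈ K) :
    W K = ∑ F ∈ univ.filter (fun F => tr l F ∈ G), numDerangements (n - F.card) +
      ∑ F ∈ K.filter (fun F => tr l F ∉ G), numDerangements (n - F.card) := by
  unfold W
  rw [← Finset.sum_filter_add_sum_filter_not K (fun F => tr l F ∈ G)]
  congr 1
  apply Finset.sum_congr _ (fun _ _ => rfl)
  ext F
  simp only [Finset.mem_filter, Finset.mem_univ, true_and]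
  exact ⟨fun h => h.2, fun h => ⟨hK F h, h⟩⟩

lemma W_G {l : ℕ} (hl : l < n) {G : Finset (Finset (Fin n))} (hU : Up G) (hG : Gen (l + 1) G) :
    W G = ∑ F ∈ univ.filter (fun F => tr l F ∈ G), numDerangements (n - F.card) +
      ∑ E ∈ HH l hl G, gg (n - (l + 1)) (l - E.card) := by
  rw [W_split l G G (fun F h => hU _ h _ (tr_sub l F))]
  congr 1
  have hsplit : ∀ F : Finset (Fin n), tr l F ∉ G → tr (l + 1) F ∈ G →
      tr (l + 1) F = insert (⟨l, hl⟩ : Fin n) (tr l F) := by
    intro F h1 h2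
    have h3 : (⟨l, hl⟩ : Fin n) ∈ F := by
      by_contra hcon
      apply h1
      have h4 : tr (l + 1) F = tr l F := by
        ext x
        simp only [mem_tr]
        constructor
        · rintro ⟨h5, h6⟩
          refine ⟨h5, ?_⟩
          rcases Nat.lt_succ_iff_lt_or_eq.1 h6 with h7 | h7
          · exact h7
          · exact absurd (by rwa [show (⟨l, hl⟩ : Fin n) = x from Fin.ext h7.symm]) hcon
        · rintro ⟨h5, h6⟩
          exact ⟨h5, by omega⟩
      rwa [← h4]
    ext x
    simp only [mem_tr, Finset.mem_insert]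
    constructor
    · rintro ⟨h5, h6⟩
      rcases Nat.lt_succ_iff_lt_or_eq.1 h6 with h7 | h7
      · exact Or.inr ⟨h5, h7⟩
      · exact Or.inl (Fin.ext h7)
    · rintro (h5 | ⟨h5, h6⟩)
      · rw [h5]; exact ⟨h3, Nat.lt_succ_self l⟩
      · exact ⟨h5, by omega⟩
  have hmaps : ∀ F ∈ G.filter (fun F => tr l F ∉ G), tr l F ∈ HH l hl G := by
    intro F hF
    rw [Finset.mem_filter] at hF
    rw [mem_HH]
    refine ⟨tr_tr l F, hF.2, ?_⟩
    rw [← hsplit F hF.2 (hG F hF.1)]
    exact hG F hF.1
  rw [← Finset.sum_fiberwise_of_maps_to hmaps]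
  apply Finset.sum_congr rfl
  intro E hE
  have hE' := mem_HH.1 hE
  have heE := notMem_of_tr hl hE'.1
  have h1 : (G.filter (fun F => tr l F ∉ G)).filter (fun F => tr l F = E) =
      univ.filter (fun F => F ∩ fl n (l + 1) = insert (⟨l, hl⟩ : Fin n) E) := by
    ext F
    simp only [Finset.mem_filter, Finset.mem_univ, true_and, ← tr_eq]
    constructor
    · rintro ⟨⟨h2, h3⟩, h4⟩
      rw [hsplit F h3 (hG F h2), h4]
    · intro h2
      have h3 : tr l F = E := by
        rw [← hE'.1]
        have h4 : tr l F = tr l (tr (l + 1) F) := by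
          ext x
          simp only [mem_tr]
          constructor
          · rintro ⟨h5, h6⟩; exact ⟨⟨h5, by omega⟩, h6⟩
          · rintro ⟨⟨h5, _⟩, h6⟩; exact ⟨h5, h6⟩
        rw [h4, h2]
        ext x
        simp only [mem_tr, Finset.mem_insert]
        constructor
        · rintro ⟨h5 | h5, h6⟩
          · rw [h5] at h6; exact absurd h6 (lt_irrefl _)
          · exact ⟨h5, h6⟩
        · rintro ⟨h5, h6⟩; exact ⟨Or.inr h5, h6⟩
      refine ⟨⟨?_, ?_⟩, h3⟩
      · refine hU _ hE'.2.2 _ ?_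
        rw [← h2]
        exact tr_sub _ _
      · rw [h3]; exact hE'.2.1
  rw [h1, sum_trace _ _ ?_, card_fl (by omega), Finset.card_insert_of_notMem heE]
  · congr 1
    omega
  · intro x hx
    rw [mem_fl]
    rcases Finset.mem_insert.1 hx with h2 | h2
    · rw [h2]; exact Nat.lt_succ_self l
    · rw [← hE'.1, mem_tr] at h2
      omega

lemma W_GS {l : ℕ} (hl : l < n) {G S : Finset (Finset (Fin n))} (hS : S ⊆ HH l hl G) :
    W (GS l G S) = ∑ F ∈ univ.filter (fun F => tr l F ∈ G), numDerangements (n - F.card) +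
      ∑ E ∈ S, gg (n - (l + 1) + 1) (l - E.card) := by
  rw [W_split l G (GS l G S) (fun F h => mem_GS.2 (Or.inl h))]
  congr 1
  have hmaps : ∀ F ∈ (GS l G S).filter (fun F => tr l F ∉ G), tr l F ∈ S := by
    intro F hF
    rw [Finset.mem_filter, mem_GS] at hF
    rcases hF.1 with h | h
    · exact absurd h hF.2
    · exact h
  rw [← Finset.sum_fiberwise_of_maps_to hmaps]
  apply Finset.sum_congr rfl
  intro E hE
  have hE' := mem_HH.1 (hS hE)
  have h1 : ((GS l G S).filter (fun F => tr l F ∉ G)).filter (fun F => tr l F = E) =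
      univ.filter (fun F => F ∩ fl n l = E) := by
    ext F
    simp only [Finset.mem_filter, Finset.mem_univ, true_and, ← tr_eq, mem_GS]
    constructor
    · rintro ⟨_, h4⟩
      exact h4
    · intro h2
      rw [h2]
      exact ⟨⟨Or.inr hE, hE'.2.1⟩, rfl⟩
  rw [h1, sum_trace _ _ ?_, card_fl (by omega)]
  · congr 1
    omega
  · intro x hx
    rw [mem_fl]
    rw [← hE'.1, mem_tr] at hx
    exact hx.2

lemma GS_TI {t l : ℕ} (hl : l < n) {G S : Finset (Finset (Fin n))} (hTI : TI t G)
    (hS : S ⊆ HH l hl G) (hSt : ∀ E ∈ S, ∀ F ∈ S, t ≤ (E ∩ F).card) : TI t (GS l G S) := by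
  have hcross : ∀ E F : Finset (Fin n), tr l E ∈ G → tr l F ∈ S →
      t ≤ (tr l E ∩ tr l F).card := by
    intro E F hE hF
    have hF' := mem_HH.1 (hS hF)
    refine (hTI _ hE _ hF'.2.2).trans (Finset.card_le_card ?_)
    intro x hx
    rw [Finset.mem_inter, Finset.mem_insert] at hx
    rw [Finset.mem_inter]
    refine ⟨hx.1, ?_⟩
    rcases hx.2 with h | h
    · exfalso
      have h1 := (mem_tr.1 hx.1).2
      rw [h] at h1
      exact lt_irrefl _ h1
    · exact h
  intro E hE F hF
  rw [mem_GS] at hE hF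
  have hsub : tr l E ∩ tr l F ⊆ E ∩ F := Finset.inter_subset_inter (tr_sub l E) (tr_sub l F)
  refine le_trans ?_ (Finset.card_le_card hsub)
  rcases hE with hE | hE
  · rcases hF with hF | hF
    · exact hTI _ hE _ hF
    · exact hcross E F hE hF
  · rcases hF with hF | hF
    · rw [Finset.inter_comm]; exact hcross F E hF hE
    · exact hSt _ hE _ hF

lemma GS_Up {l : ℕ} (hl : l < n) {G S : Finset (Finset (Fin n))} (hU : Up G) (hSh : Sh G)
    (hS : S ⊆ HH l hl G) : Up (GS l G S) := by
  intro F hF F2 hsub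
  rw [mem_GS] at hF ⊢
  have h1 := tr_mono l hsub
  rcases hF with hF | hF
  · exact Or.inl (hU _ hF _ h1)
  · by_cases heq : tr l F2 ⊆ tr l F
    · right
      rwa [Finset.Subset.antisymm heq h1]
    · left
      rw [Finset.not_subset] at heq
      obtain ⟨x, hx, hx2⟩ := heq
      refine hU _ (HH_shift hl hSh (hS hF) (mem_tr.1 hx).2 hx2) _ ?_
      exact Finset.insert_subset hx h1

lemma GS_Gen (l : ℕ) (G S : Finset (Finset (Fin n))) : Gen l (GS l G S) := by
  intro F hF
  rw [mem_GS] at hF ⊢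
  rwa [tr_tr]

/-- the induction on the number of generating points -/
lemma main_l {t : ℕ} (ht : 1 ≤ t) (hn : 2 * t < n) : ∀ l : ℕ, t ≤ l → l ≤ n →
    ∀ G : Finset (Finset (Fin n)), TI t G → Up G → Gen l G →
      W G ≤ (n - t).factorial ∧ (W G = (n - t).factorial → ∃ X ∈ G, X.card = t) := by
  intro l htl
  induction l, htl using Nat.le_induction with
  | base =>
    intro htn G hTI hU hG
    have hfl : ∀ F ∈ G, F ∩ fl n t = fl n t ∧ fl n t ∈ G := by
      intro F hF
      have h1 := hG F hF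
      have h2 := hTI _ h1 _ h1
      rw [Finset.inter_self, tr_eq] at h2
      have h3 : F ∩ fl n t = fl n t := by
        apply Finset.eq_of_subset_of_card_le Finset.inter_subset_right
        rw [card_fl htn]
        exact h2
      refine ⟨h3, ?_⟩
      rw [← h3, ← tr_eq]
      exact h1
    have hle : W G ≤ (n - t).factorial := by
      have h1 := sum_trace (n := n) (fl n t) (fl n t) (Finset.Subset.refl _)
      rw [card_fl htn, Nat.sub_self, gg_c_zero] at h1
      rw [← h1]
      unfold W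
      apply Finset.sum_le_sum_of_subset
      intro F hF
      rw [Finset.mem_filter]
      exact ⟨Finset.mem_univ _, (hfl F hF).1⟩
    refine ⟨hle, ?_⟩
    intro heq
    have hne : G.Nonempty := by
      by_contra hcon
      rw [Finset.not_nonempty_iff_eq_empty] at hcon
      subst hcon
      have := Nat.factorial_pos (n - t)
      simp [W] at heq
      omega
    obtain ⟨F, hF⟩ := hne
    exact ⟨fl n t, (hfl F hF).2, card_fl htn⟩
  | succ l htl ih =>
    intro hln G hTI hU hG
    obtain ⟨G1, a1, a2, a3, a4, a5, a6⟩ := shift_exists t (l + 1) _ G rfl hTI hU hG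
    have hl : l < n := hln
    obtain ⟨S, b1, b2, b3, b4⟩ := select (c := n - (l + 1)) ht htl hl.le (by omega) _
      (HH l hl G1) rfl (HH_PH hl a1 a4)
    have hTI' := GS_TI hl a1 b1 b2
    have hU' := GS_Up hl a2 a4 b1
    have hG' := GS_Gen l G1 S
    obtain ⟨c1, c2⟩ := ih hl.le (GS l G1 S) hTI' hU' hG'
    have hW1 := W_G hl a2 a3
    have hW2 := W_GS hl b1
    have hle : W G1 ≤ W (GS l G1 S) := by
      rw [hW1, hW2]
      exact Nat.add_le_add_left b3 _
    rw [a5] at hle
    refine ⟨hle.trans c1, ?_⟩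
    intro heq
    have heq2 : W (GS l G1 S) = (n - t).factorial := le_antisymm c1 (heq ▸ hle)
    obtain ⟨X, hX, hXt⟩ := c2 heq2
    have hX2 : tr l X ∈ G1 ∨ tr l X ∈ S := mem_GS.1 hX
    have htr : tr l X = X := by
      apply Finset.eq_of_subset_of_card_le (tr_sub l X)
      rw [hXt]
      rcases hX2 with h | h
      · have := a1 _ h _ h
        rwa [Finset.inter_self] at this
      · have := b2 _ h _ h
        rwa [Finset.inter_self] at this
    rw [htr] at hX2
    rcases hX2 with h | h
    · exact a6 ⟨X, h, hXt⟩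
    · exfalso
      have h1 := b4 ⟨X, b1 h, hXt⟩
      have h2 : W G1 < W (GS l G1 S) := by
        rw [hW1, hW2]
        exact Nat.add_lt_add_left h1 _
      rw [a5] at h2
      omega

/-- **Weighted Ahlswede-Khachatrian theorem**, weights `numDerangements (n - |F|)`. -/
theorem set_part {t : ℕ} (ht : 1 ≤ t) (hn : 2 * t < n) (G : Finset (Finset (Fin n)))
    (hG : TI t G) :
    W G ≤ (n - t).factorial ∧ (W G = (n - t).factorial → ∃ X ∈ G, X.card = t) := by
  set U : Finset (Finset (Fin n)) := univ.filter (fun F => ∃ E ∈ G, E ⊆ F) with hUdef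
  have hU : Up U := by
    intro E hE F hEF
    rw [hUdef, Finset.mem_filter] at hE ⊢
    obtain ⟨_, D, hD, hDE⟩ := hE
    exact ⟨Finset.mem_univ _, D, hD, hDE.trans hEF⟩
  have hTI : TI t U := by
    intro E hE F hF
    rw [hUdef, Finset.mem_filter] at hE hF
    obtain ⟨_, D, hD, hDE⟩ := hE
    obtain ⟨_, D', hD', hDF⟩ := hF
    exact (hG D hD D' hD').trans (Finset.card_le_card (Finset.inter_subset_inter hDE hDF))
  have hGen : Gen n U := by
    intro E hE
    have h1 : tr n E = E := by
      ext x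
      rw [mem_tr]
      exact ⟨fun h => h.1, fun h => ⟨h, x.isLt⟩⟩
    rwa [h1]
  have hsub : G ⊆ U := by
    intro E hE
    rw [hUdef, Finset.mem_filter]
    exact ⟨Finset.mem_univ _, E, hE, Finset.Subset.refl _⟩
  have hle : W G ≤ W U := Finset.sum_le_sum_of_subset hsub
  obtain ⟨h1, h2⟩ := main_l ht hn n (by omega) le_rfl U hTI hU hGen
  refine ⟨hle.trans h1, ?_⟩
  intro heq
  obtain ⟨X, hX, hXt⟩ := h2 (le_antisymm h1 (heq ▸ hle))
  rw [hUdef, Finset.mem_filter] at hX
  obtain ⟨_, E, hE, hEX⟩ := hX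
  have h3 : E = X := by
    apply Finset.eq_of_subset_of_card_le hEX
    rw [hXt]
    have := hG E hE E hE
    rwa [Finset.inter_self] at this
  exact ⟨E, hE, by rw [h3]; exact hXt⟩

end Pool.Agent.Work.MP_46fa68_48
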